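import Pool.Agent.H458.AR.Num

/-!
# Part LOW: union over the supports
-/

set_option autoImplicit false

open Matrix Polynomial
open scoped Classical

namespace Pool.Agent.H922.AR458

open Pool.Agent.N922.PQ (IsPr GoodS)
open Pool.Agent.H458.AR

/-- Part LOW for `1 ≤ M`. -/
def S_LOW1 : Prop := ∃ K : ℕ, ∀ (X : ℕ) (S : Finset ℤ) (s : ℤ → ℤ) (k M : ℕ), 1 ≤ M → GoodS S s →
  (∀ Q ∈ S, Q ≤ (M : ℤ)) → ∏ Q ∈ S, Q ≤ (X : ℤ) →
  {p : ℤ × ℤ | LowB X S s k p}.Finite ∧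
  2 ^ S.card * (∏ Q ∈ S, Q) ^ 2 * ({p : ℤ × ℤ | LowB X S s k p}.ncard : ℤ) ≤
    K * ((S.card + 1) * M ^ 47) ^ k * X ^ 5

/-- the small subsets -/
noncomputable def Sm (S : Finset ℤ) (k : ℕ) : Finset (Finset ℤ) :=
  S.powerset.filter (fun Z => Z.card ≤ k)

theorem card_Sm (S : Finset ℤ) (k : ℕ) : (Sm S k).card ≤ (S.card + 1) ^ k := by
  induction k with
  | zero =>
    have h : Sm S 0 ⊆ {∅} := by
      intro Z hZ
      simp only [Sm, Finset.mem_filter] at hZ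
      have := Finset.card_eq_zero.1 (Nat.le_zero.1 hZ.2)
      simp [this]
    simpa using Finset.card_le_card h
  | succ k ih =>
    have h : Sm S (k + 1) ⊆ (Finset.insertNone S ×ˢ Sm S k).image
        (fun q => match q.1 with
          | none => q.2
          | some a => insert a q.2) := by
      intro Z hZ
      simp only [Sm, Finset.mem_filter, Finset.mem_powerset] at hZ
      rw [Finset.mem_image]
      by_cases hc : Z.card ≤ k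
      · exact ⟨(none, Z), by simp [Sm, hZ.1, hc], rfl⟩
      · have hne : Z.Nonempty := Finset.card_pos.1 (by omega)
        obtain ⟨a, ha⟩ := hne
        refine ⟨(some a, Z.erase a), ?_, Finset.insert_erase ha⟩
        simp only [Finset.mem_product, Finset.some_mem_insertNone, Sm, Finset.mem_filter,
          Finset.mem_powerset]
        refine ⟨hZ.1 ha, (Finset.erase_subset _ _).trans hZ.1, ?_⟩
        rw [Finset.card_erase_of_mem ha]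
        omega
    calc (Sm S (k + 1)).card ≤ _ := Finset.card_le_card h
      _ ≤ (Finset.insertNone S ×ˢ Sm S k).card := Finset.card_image_le
      _ = (S.card + 1) * (Sm S k).card := by rw [Finset.card_product, Finset.card_insertNone]
      _ ≤ (S.card + 1) * (S.card + 1) ^ k := Nat.mul_le_mul_left _ ih
      _ = (S.card + 1) ^ (k + 1) := by ring

theorem prod_pos {S Z : Finset ℤ} {s : ℤ → ℤ} (hS : GoodS S s) (hZ : Z ⊆ S) :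
    1 ≤ ∏ Q ∈ Z, Q := by
  have : 0 < ∏ Q ∈ Z, Q := Finset.prod_pos fun Q hQ => (hS Q (hZ hQ)).1.1
  omega

theorem prod_le {S Z : Finset ℤ} {s : ℤ → ℤ} (hS : GoodS S s) (hZ : Z ⊆ S) {M : ℕ}
    (hM : 1 ≤ M) (hb : ∀ Q ∈ S, Q ≤ (M : ℤ)) {k : ℕ} (hk : Z.card ≤ k) :
    ∏ Q ∈ Z, Q ≤ (M : ℤ) ^ k := by
  calc ∏ Q ∈ Z, Q ≤ ∏ _Q ∈ Z, (M : ℤ) :=
        Finset.prod_le_prod (fun Q hQ => (hS Q (hZ hQ)).1.1.le) fun Q hQ => hb Q (hZ hQ)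
    _ = (M : ℤ) ^ Z.card := by simp
    _ ≤ (M : ℤ) ^ k := pow_le_pow_right₀ (by exact_mod_cast hM) hk

theorem one {K : ℕ} (hK : ∀ (X : ℕ) (R : Finset ℤ) (s : ℤ → ℤ) (D : ℤ), GoodS R s → 1 ≤ D →
      (∀ Q ∈ R, ¬ Q ∣ D) → ∏ Q ∈ R, Q ≤ (X : ℤ) →
      {p : ℤ × ℤ | ABad X R s D p}.Finite ∧
      2 ^ R.card * (∏ Q ∈ R, Q) ^ 2 * ({p : ℤ × ℤ | ABad X R s D p}.ncard : ℤ) ≤
        K * D ^ 44 * X ^ 5)
    (X : ℕ) (S : Finset ℤ) (s : ℤ → ℤ) (k M : ℕ) (hM : 1 ≤ M) (hS : GoodS S s)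
    (hb : ∀ Q ∈ S, Q ≤ (M : ℤ)) (hX : ∏ Q ∈ S, Q ≤ (X : ℤ)) (Z Zr : Finset ℤ) (hZr : Zr ⊆ Z)
    (hZ : Z ⊆ S) (hk : Z.card ≤ k) :
    {p : ℤ × ℤ | ABad X (S \ Z) s (∏ Q ∈ Zr, Q) p}.Finite ∧
    2 ^ S.card * (∏ Q ∈ S, Q) ^ 2 *
      ({p : ℤ × ℤ | ABad X (S \ Z) s (∏ Q ∈ Zr, Q) p}.ncard : ℤ) ≤
        K * (2 * M ^ 46) ^ k * X ^ 5 := by
  have hR : GoodS (S \ Z) s := fun Q hQ => hS Q (Finset.mem_sdiff.1 hQ).1
  have hD : 1 ≤ ∏ Q ∈ Zr, Q := prod_pos hS (hZr.trans hZ)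
  have hP : ∏ Q ∈ S, Q = (∏ Q ∈ S \ Z, Q) * ∏ Q ∈ Z, Q := (Finset.prod_sdiff hZ).symm
  have hZ1 : 1 ≤ ∏ Q ∈ Z, Q := prod_pos hS hZ
  have hR1 : 1 ≤ ∏ Q ∈ S \ Z, Q := prod_pos hS Finset.sdiff_subset
  have hRX : ∏ Q ∈ S \ Z, Q ≤ (X : ℤ) := by
    refine le_trans ?_ hX
    rw [hP]
    nlinarith
  have hnd : ∀ Q ∈ S \ Z, ¬ Q ∣ ∏ Q ∈ Zr, Q := by
    intro Q hQ hdvd
    have hQS := (Finset.mem_sdiff.1 hQ)
    obtain ⟨Q', hQ', h1⟩ := (hS Q hQS.1).1.2.exists_mem_finset_dvd hdvd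
    have hQ'S := hZ (hZr hQ')
    have h2 : Associated Q Q' := (hS Q hQS.1).1.2.associated_of_dvd (hS Q' hQ'S).1.2 h1
    have h3 : Q = Q' := Int.eq_of_associated_of_nonneg h2 (hS Q hQS.1).1.1.le (hS Q' hQ'S).1.1.le
    exact hQS.2 (h3 ▸ hZr hQ')
  obtain ⟨hfin, hle⟩ := hK X (S \ Z) s (∏ Q ∈ Zr, Q) hR hD hnd hRX
  refine ⟨hfin, ?_⟩
  have hcard : S.card = (S \ Z).card + Z.card := by
    rw [Finset.card_sdiff_of_subset hZ]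
    have := Finset.card_le_card hZ
    omega
  have hDM : ∏ Q ∈ Zr, Q ≤ (M : ℤ) ^ k :=
    prod_le hS (hZr.trans hZ) hM hb ((Finset.card_le_card hZr).trans hk)
  have hZM : ∏ Q ∈ Z, Q ≤ (M : ℤ) ^ k := prod_le hS hZ hM hb hk
  set n : ℤ := ({p : ℤ × ℤ | ABad X (S \ Z) s (∏ Q ∈ Zr, Q) p}.ncard : ℤ) with hn
  have hn0 : 0 ≤ n := by positivity
  have e1 : (2 : ℤ) ^ S.card * (∏ Q ∈ S, Q) ^ 2 * n =
      (2 ^ Z.card * (∏ Q ∈ Z, Q) ^ 2) * (2 ^ (S \ Z).card * (∏ Q ∈ S \ Z, Q) ^ 2 * n) := by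
    rw [hcard, hP, pow_add]
    ring
  rw [e1]
  have e2 : (2 : ℤ) ^ Z.card * (∏ Q ∈ Z, Q) ^ 2 ≤ 2 ^ k * ((M : ℤ) ^ k) ^ 2 := by
    apply mul_le_mul (pow_le_pow_right₀ (by norm_num) hk) (pow_le_pow_left₀ (by omega) hZM 2)
      (by positivity) (by positivity)
  have e3 : (K : ℤ) * (∏ Q ∈ Zr, Q) ^ 44 * X ^ 5 ≤ K * ((M : ℤ) ^ k) ^ 44 * X ^ 5 := by
    have := pow_le_pow_left₀ (by omega : (0 : ℤ) ≤ ∏ Q ∈ Zr, Q) hDM 44
    gcongr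
  calc ((2 : ℤ) ^ Z.card * (∏ Q ∈ Z, Q) ^ 2) * (2 ^ (S \ Z).card * (∏ Q ∈ S \ Z, Q) ^ 2 * n)
      ≤ (2 ^ k * ((M : ℤ) ^ k) ^ 2) * (K * ((M : ℤ) ^ k) ^ 44 * X ^ 5) := by
        apply mul_le_mul e2 (hle.trans e3) (by positivity) (by positivity)
    _ = K * (2 * (M : ℤ) ^ 46) ^ k * X ^ 5 := by
        rw [mul_pow, ← pow_mul, ← pow_mul, ← pow_mul]
        ring

theorem low1 (h : S_ABD) : S_LOW1 := by
  obtain ⟨K, hK⟩ := h
  refine ⟨K, fun X S s k M hM hS hb hX => ?_⟩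
  -- the index set
  set I : Finset ((_ : Finset ℤ) × Finset ℤ) := (Sm S k).sigma (fun Z => Z.powerset) with hI
  have hmem : ∀ q ∈ I, q.2 ⊆ q.1 ∧ q.1 ⊆ S ∧ q.1.card ≤ k := by
    intro q hq
    simp only [hI, Finset.mem_sigma, Sm, Finset.mem_filter, Finset.mem_powerset] at hq
    exact ⟨hq.2, hq.1.1, hq.1.2⟩
  have hcI : (I.card : ℤ) ≤ ((S.card + 1) * 2) ^ k := by
    have h1 : I.card ≤ (Sm S k).card * 2 ^ k := by
      rw [hI, Finset.card_sigma, ← smul_eq_mul, ← Finset.sum_const]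
      refine Finset.sum_le_sum fun Z hZ => ?_
      rw [Finset.card_powerset]
      exact Nat.pow_le_pow_right (by norm_num) (Finset.mem_filter.1 hZ).2
    have h2 := h1.trans (Nat.mul_le_mul_right (2 ^ k) (card_Sm S k))
    rw [← mul_pow] at h2
    exact_mod_cast h2
  have hsub : {p : ℤ × ℤ | LowB X S s k p} ⊆
      ⋃ q ∈ I, {p : ℤ × ℤ | ABad X (S \ q.1) s (∏ Q ∈ q.2, Q) p} := by
    rintro p ⟨Zr, Z, h1, h2, h3, h4⟩
    refine Set.mem_iUnion₂.2 ⟨⟨Z, Zr⟩, ?_, h4⟩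
    simp only [hI, Finset.mem_sigma, Sm, Finset.mem_filter, Finset.mem_powerset]
    exact ⟨⟨h2, h3⟩, h1⟩
  have hone := fun q (hq : q ∈ I) => one hK X S s k M hM hS hb hX q.1 q.2 (hmem q hq).1
    (hmem q hq).2.1 (hmem q hq).2.2
  have hfin : (⋃ q ∈ I, {p : ℤ × ℤ | ABad X (S \ q.1) s (∏ Q ∈ q.2, Q) p}).Finite :=
    Set.Finite.biUnion I.finite_toSet fun q hq => (hone q hq).1
  refine ⟨hfin.subset hsub, ?_⟩
  have hn : {p : ℤ × ℤ | LowB X S s k p}.ncard ≤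
      ∑ q ∈ I, {p : ℤ × ℤ | ABad X (S \ q.1) s (∏ Q ∈ q.2, Q) p}.ncard :=
    (Set.ncard_le_ncard hsub hfin).trans (Finset.set_ncard_biUnion_le _ _)
  have hP0 : 0 ≤ (2 : ℤ) ^ S.card * (∏ Q ∈ S, Q) ^ 2 := by positivity
  have hbig : 2 ^ S.card * (∏ Q ∈ S, Q) ^ 2 * ({p : ℤ × ℤ | LowB X S s k p}.ncard : ℤ) ≤
      K * ((S.card + 1) * 2 * (2 * M ^ 46)) ^ k * X ^ 5 := by
    calc (2 : ℤ) ^ S.card * (∏ Q ∈ S, Q) ^ 2 * ({p : ℤ × ℤ | LowB X S s k p}.ncard : ℤ)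
        ≤ 2 ^ S.card * (∏ Q ∈ S, Q) ^ 2 *
          ((∑ q ∈ I, {p : ℤ × ℤ | ABad X (S \ q.1) s (∏ Q ∈ q.2, Q) p}.ncard : ℕ) : ℤ) := by
          apply mul_le_mul_of_nonneg_left _ hP0
          exact_mod_cast hn
      _ = ∑ q ∈ I, 2 ^ S.card * (∏ Q ∈ S, Q) ^ 2 *
          ({p : ℤ × ℤ | ABad X (S \ q.1) s (∏ Q ∈ q.2, Q) p}.ncard : ℤ) := by
          push_cast
          rw [Finset.mul_sum]
      _ ≤ ∑ _q ∈ I, (K : ℤ) * (2 * (M : ℤ) ^ 46) ^ k * (X : ℤ) ^ 5 := Finset.sum_le_sum fun q hq => (hone q hq).2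
      _ = (I.card : ℤ) * ((K : ℤ) * (2 * (M : ℤ) ^ 46) ^ k * (X : ℤ) ^ 5) := by
          rw [Finset.sum_const, nsmul_eq_mul]
      _ ≤ (((S.card : ℤ) + 1) * 2) ^ k * ((K : ℤ) * (2 * (M : ℤ) ^ 46) ^ k * (X : ℤ) ^ 5) := by
          apply mul_le_mul_of_nonneg_right hcI
          positivity
      _ = (K : ℤ) * (((S.card : ℤ) + 1) * 2 * (2 * (M : ℤ) ^ 46)) ^ k * (X : ℤ) ^ 5 := by
          rw [mul_pow (((S.card : ℤ) + 1) * 2)]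
          ring
  by_cases hne : S.Nonempty
  · obtain ⟨Q, hQ⟩ := hne
    have h4 : 4 ≤ M := by
      have h1 := hb Q hQ
      obtain ⟨⟨h2, h3⟩, h5, -⟩ := hS Q hQ
      have h6 : Q ≠ 1 := fun h => h3.not_isUnit (by rw [h]; exact isUnit_one)
      omega
    refine hbig.trans ?_
    have h5 : ((S.card : ℤ) + 1) * 2 * (2 * (M : ℤ) ^ 46) ≤ (S.card + 1) * M ^ 47 := by
      have h6 : (4 : ℤ) ≤ M := by exact_mod_cast h4
      have h7 : (0 : ℤ) ≤ M ^ 46 := by positivity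
      have h8 : (M : ℤ) ^ 47 = M ^ 46 * M := by ring
      rw [h8]
      have h9 : (4 : ℤ) * M ^ 46 ≤ M ^ 46 * M := by nlinarith
      have h10 : (0 : ℤ) ≤ (S.card : ℤ) + 1 := by positivity
      calc ((S.card : ℤ) + 1) * 2 * (2 * (M : ℤ) ^ 46) = ((S.card : ℤ) + 1) * (4 * (M : ℤ) ^ 46) := by
            ring
        _ ≤ ((S.card : ℤ) + 1) * ((M : ℤ) ^ 46 * M) := mul_le_mul_of_nonneg_left h9 h10
    have h11 := pow_le_pow_left₀ (by positivity) h5 k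
    gcongr
  · rw [Finset.not_nonempty_iff_eq_empty] at hne
    subst hne
    obtain ⟨h1, h2⟩ := hK X ∅ s 1 hS le_rfl (by simp) hX
    have h3 : {p : ℤ × ℤ | LowB X ∅ s k p} ⊆ {p : ℤ × ℤ | ABad X ∅ s 1 p} := by
      rintro p ⟨Zr, Z, h1, h2, -, h4⟩
      have hZ : Z = ∅ := Finset.subset_empty.1 h2
      have hZr : Zr = ∅ := Finset.subset_empty.1 (h1.trans h2)
      subst hZ
      subst hZr
      simpa using h4
    have h4 := Set.ncard_le_ncard h3 h1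
    have h5 : (1 : ℤ) ≤ (M : ℤ) ^ 47 := one_le_pow₀ (by exact_mod_cast hM)
    have h6 : (1 : ℤ) ≤ ((M : ℤ) ^ 47) ^ k := one_le_pow₀ h5
    have h7 : ({p : ℤ × ℤ | LowB X ∅ s k p}.ncard : ℤ) ≤ K * X ^ 5 := by
      have h8 : ({p : ℤ × ℤ | LowB X ∅ s k p}.ncard : ℤ) ≤
        ({p : ℤ × ℤ | ABad X ∅ s 1 p}.ncard : ℤ) := by exact_mod_cast h4
      refine h8.trans ?_
      simpa using h2
    have h9 : (0 : ℤ) ≤ (K : ℤ) * X ^ 5 := by positivity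
    simp only [Finset.card_empty, pow_zero, Finset.prod_empty, one_pow, one_mul, Nat.cast_zero,
      zero_add]
    nlinarith

end Pool.Agent.H922.AR458
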